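import Pool.Agent.MP_96ff56_al.H10.Fano

open Pool.Agent.MP_96ff56_al.H10

/-- For `(d, n) = (7, 4)` and every complex vector space `V` of finite dimension `m ≥ 4`, the module
`S_{(7^4)} V` occurs in `S^7(S^4 V)` and its isotypic component lies in the kernel of `h_{7,4}`. -/
theorem Pool.Agent.Results.MP_96ff56_al.Fano74.result
    (V : Type*) [AddCommGroup V] [Module ℂ V] (m : ℕ) (b : Module.Basis (Fin m) ℂ V) (hm : 4 ≤ m) :
    isotypic b (rect m 7 4) (symSym V 7 4) ≠ ⊥ ∧
      isotypic b (rect m 7 4) (symSym V 7 4) ≤ LinearMap.ker (hhh V 7 4) :=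
  ⟨isotypic_ne_bot hm b, isotypic_le_ker (by norm_num) hm (by decide) b⟩
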