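import Pool.Agent.MP_96ff56_al.H28.Link

open Pool.Agent.MP_96ff56_al.H10

/-- For even `d` and every `n` such that some prime `p` satisfies `n < p ≤ d + 1`, the
`S_{(d^n)} V`-isotypic component of `S^d(S^n V)` is not contained in the kernel of `h_{d,n}`. -/
theorem Pool.Agent.Results.MP_96ff56_al.PrimeWindow.result
    (V : Type*) [AddCommGroup V] [Module ℂ V] (m : ℕ) (b : Module.Basis (Fin m) ℂ V)
    (d n p : ℕ) (hm : n ≤ m) (hd : Even d) (hp : p.Prime) (hn : n < p) (hpd : p ≤ d + 1) :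
    ¬ isotypic b (rect m d n) (symSym V d n) ≤ LinearMap.ker (hhh V d n) := by
  obtain ⟨s, hs⟩ := Pool.Agent.MP_96ff56_al.H28.core hd hp hn hpd
  exact Pool.Agent.MP_96ff56_al.H28.main b hm hs
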